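import Mathlib

/-! The corners of the upper envelope of finitely many lines with different slopes. -/

set_option autoImplicit false

namespace Pool.Agent.J4H23.HI

open Real Set

/-- the crossing point of the lines `k` and `j` -/
noncomputable def cr (m : ℕ → ℝ) (k j : ℕ) : ℝ := (log (m k) - log (m j)) / ((j : ℝ) - k)

/-- the line `j` -/
noncomputable def ln (m : ℕ → ℝ) (j : ℕ) (u : ℝ) : ℝ := log (m j) + j * u

lemma ln_sub (m : ℕ → ℝ) {k j : ℕ} (h : k < j) (u : ℝ) :
    ln m k u - ln m j u = ((j : ℝ) - k) * (cr m k j - u) := by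
  have h1 : ((j : ℝ) - k) ≠ 0 := by
    have : (k : ℝ) < j := by exact_mod_cast h
    linarith
  unfold ln cr
  field_simp
  ring

lemma one_le_sub {k j : ℕ} (h : k < j) : (1 : ℝ) ≤ (j : ℝ) - k := by
  have : (k : ℝ) + 1 ≤ j := by exact_mod_cast h
  linarith

/-- where the line `k` is left by the envelope -/
noncomputable def tau (J : Finset ℕ) (m : ℕ → ℝ) (k : ℕ) : ℝ :=
  if h : (J.filter (fun j => k < j)).Nonempty then
    (J.filter (fun j => k < j)).inf' h (fun j => cr m k j) else 0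

lemma tau_le (J : Finset ℕ) (m : ℕ → ℝ) {k j : ℕ} (hj : j ∈ J) (h : k < j) :
    tau J m k ≤ cr m k j := by
  have h1 : j ∈ J.filter (fun j => k < j) := Finset.mem_filter.2 ⟨hj, h⟩
  unfold tau
  rw [dif_pos ⟨j, h1⟩]
  exact Finset.inf'_le _ h1

lemma le_tau (J : Finset ℕ) (m : ℕ → ℝ) {k j : ℕ} (hj : j ∈ J) (h : k < j) {u : ℝ}
    (hu : ∀ i ∈ J, ln m i u ≤ ln m k u) : u ≤ tau J m k := by
  have h1 : j ∈ J.filter (fun j => k < j) := Finset.mem_filter.2 ⟨hj, h⟩
  unfold tau
  rw [dif_pos ⟨j, h1⟩]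
  refine Finset.le_inf' _ _ fun i hi => ?_
  obtain ⟨hi1, hi2⟩ := Finset.mem_filter.1 hi
  have h2 := ln_sub m hi2 u
  have h3 := hu i hi1
  have h4 := one_le_sub hi2
  by_contra hcon
  push Not at hcon
  nlinarith

lemma left (J : Finset ℕ) (m : ℕ → ℝ) {k j : ℕ} (hk : k ∈ J) (hj : j ∈ J) (h : j < k) {u : ℝ}
    (hu : ∀ i ∈ J, ln m i u ≤ ln m k u) : ∃ c ∈ J.image (tau J m), cr m j k ≤ c ∧ c ≤ u := by
  obtain ⟨i, hi, himax⟩ := Finset.exists_max_image (J.filter (fun i => i < k))
    (fun i => cr m i k) ⟨j, Finset.mem_filter.2 ⟨hj, h⟩⟩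
  obtain ⟨hi1, hi2⟩ := Finset.mem_filter.1 hi
  have hcu : cr m i k ≤ u := by
    have h2 := ln_sub m hi2 u
    have h3 := hu i hi1
    have h4 := one_le_sub hi2
    by_contra hcon
    push Not at hcon
    nlinarith
  have hmax : ∀ l ∈ J, ln m l (cr m i k) ≤ ln m k (cr m i k) := by
    intro l hl
    rcases lt_trichotomy l k with h5 | h5 | h5
    · have h2 := ln_sub m h5 (cr m i k)
      have h3 := himax l (Finset.mem_filter.2 ⟨hl, h5⟩)
      have h4 := one_le_sub h5
      have h6 : cr m l k - cr m i k ≤ 0 := by linarith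
      nlinarith
    · rw [h5]
    · have h2 := ln_sub m h5 (cr m i k)
      have h3 := ln_sub m h5 u
      have h4 := one_le_sub h5
      have h6 := hu l hl
      have h7 : u ≤ cr m k l := by
        by_contra hcon
        push Not at hcon
        nlinarith
      have h8 : 0 ≤ cr m k l - cr m i k := by linarith
      nlinarith
  have heq : ln m i (cr m i k) = ln m k (cr m i k) := by
    have h2 := ln_sub m hi2 (cr m i k)
    rw [sub_self, mul_zero] at h2
    linarith
  have h9 : cr m i k = tau J m i := by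
    apply le_antisymm
    · exact le_tau J m hk hi2 fun l hl => by rw [heq]; exact hmax l hl
    · exact tau_le J m hk hi2
  exact ⟨cr m i k, Finset.mem_image.2 ⟨i, hi1, h9.symm⟩,
    himax j (Finset.mem_filter.2 ⟨hj, h⟩), hcu⟩

/-- away from the corners one of the lines dominates all the others, with the same margin -/
theorem np (J : Finset ℕ) (m : ℕ → ℝ) : ∃ S : Finset ℝ, S.card ≤ J.card ∧
    ∀ D : ℝ, 0 ≤ D → ∀ I : Set ℝ, I.OrdConnected → I.Nonempty → (∃ i ∈ J, 0 < m i) →
      (∀ u ∈ I, ∀ c ∈ S, D < |u - c|) →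
      ∃ k ∈ J, 0 < m k ∧ ∀ u ∈ I, ∀ j ∈ J, 0 < m j → j ≠ k →
        log (m j) + j * u + D ≤ log (m k) + k * u := by
  classical
  set J' := J.filter (fun i => 0 < m i) with hJ'
  refine ⟨J'.image (tau J' m), Finset.card_image_le.trans (Finset.card_filter_le _ _), ?_⟩
  rintro D hD I hI ⟨u₀, hu₀⟩ ⟨i₀, hi₀, hm₀⟩ hfar
  obtain ⟨k, hk, hmax⟩ := Finset.exists_max_image J' (fun i => ln m i u₀)
    ⟨i₀, Finset.mem_filter.2 ⟨hi₀, hm₀⟩⟩
  obtain ⟨hkJ, hkm⟩ := Finset.mem_filter.1 hk
  have hnot : ∀ c ∈ J'.image (tau J' m), c ∉ I := fun c hc hcI => by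
    have := hfar c hcI c hc
    rw [sub_self, abs_zero] at this
    linarith
  have hmaxI : ∀ v ∈ I, ∀ i ∈ J', ln m i v ≤ ln m k v := by
    intro v hv i hi
    by_contra hcon
    push Not at hcon
    rcases le_total u₀ v with huv | huv
    · rcases lt_trichotomy i k with h | h | h
      · have h2 := ln_sub m h v
        have h3 := ln_sub m h u₀
        have h4 := one_le_sub h
        have h5 := hmax i hi
        nlinarith
      · rw [h] at hcon
        exact lt_irrefl _ hcon
      · have h2 := ln_sub m h v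
        have h4 := one_le_sub h
        have h5 := le_tau J' m hi h hmax
        have h6 := tau_le J' m hi h
        have h7 : cr m k i ≤ v := by
          by_contra h8
          push Not at h8
          nlinarith
        exact hnot _ (Finset.mem_image_of_mem _ hk) (hI.out hu₀ hv ⟨h5, h6.trans h7⟩)
    · rcases lt_trichotomy i k with h | h | h
      · have h2 := ln_sub m h v
        have h4 := one_le_sub h
        obtain ⟨c, hc, h5, h6⟩ := left J' m hk hi h hmax
        have h7 : v ≤ cr m i k := by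
          by_contra h8
          push Not at h8
          nlinarith
        exact hnot _ hc (hI.out hv hu₀ ⟨h7.trans h5, h6⟩)
      · rw [h] at hcon
        exact lt_irrefl _ hcon
      · have h2 := ln_sub m h v
        have h3 := ln_sub m h u₀
        have h4 := one_le_sub h
        have h5 := hmax i hi
        nlinarith
  refine ⟨k, hkJ, hkm, fun u hu j hj hjm hjk => ?_⟩
  have hj' : j ∈ J' := Finset.mem_filter.2 ⟨hj, hjm⟩
  change ln m j u + D ≤ ln m k u
  rcases lt_or_gt_of_ne hjk with h | h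
  · obtain ⟨c, hc, h5, h6⟩ := left J' m hk hj' h (hmaxI u hu)
    have h1 := hfar u hu c hc
    rw [abs_of_nonneg (by linarith)] at h1
    have h2 := ln_sub m h u
    have h4 := one_le_sub h
    nlinarith
  · have h5 := le_tau J' m hj' h (hmaxI u hu)
    have h6 := tau_le J' m hj' h
    have h1 := hfar u hu _ (Finset.mem_image_of_mem _ hk)
    rw [abs_sub_comm, abs_of_nonneg (by linarith)] at h1
    have h2 := ln_sub m h u
    have h4 := one_le_sub h
    nlinarith

/-- the positive zeros of a real polynomial of degree `M` lie near at most `M + 1` scales, which depend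
on the sizes of the coefficients only -/
theorem e3 (M : ℕ) (m : Fin (M + 1) → ℝ) : ∃ S : Finset ℝ, S.card ≤ M + 1 ∧
    ∀ (c : Fin (M + 1) → ℝ) (κ s : ℝ), 0 < κ → κ ≤ 1 → (∀ i, 0 ≤ m i) →
      (∀ i, κ * m i ≤ |c i|) → (∀ i, |c i| ≤ m i) → (∃ i, 0 < m i) → 0 < s →
      ∑ i, c i * s ^ (i : ℕ) = 0 → ∃ x ∈ S, |log s - x| ≤ log ((M + 1) / κ) := by
  classical
  set m' : ℕ → ℝ := fun i => if h : i < M + 1 then m ⟨i, h⟩ else 0 with hm'
  have hm'i : ∀ i : Fin (M + 1), m' i = m i := fun i => by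
    simp only [hm']
    rw [dif_pos i.2]
  obtain ⟨S, hS, hnp⟩ := np (Finset.range (M + 1)) m'
  rw [Finset.card_range] at hS
  refine ⟨S, hS, fun c κ s hκ hκ1 hm h1 h2 hex hs hsum => ?_⟩
  by_contra hcon
  push Not at hcon
  have hM1 : (0 : ℝ) < (M : ℝ) + 1 := by positivity
  have hD : 0 ≤ log (((M : ℝ) + 1) / κ) := by
    apply Real.log_nonneg
    rw [le_div_iff₀ hκ]
    have : (0 : ℝ) ≤ M := Nat.cast_nonneg M
    linarith
  obtain ⟨i₀, hi₀⟩ := hex
  obtain ⟨k', hk', hkm, hdom⟩ := hnp (log (((M : ℝ) + 1) / κ)) hD {log s} ordConnected_singleton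
    ⟨log s, rfl⟩ ⟨i₀, Finset.mem_range.2 i₀.2, by rw [hm'i]; exact hi₀⟩ (by
      rintro u rfl c hc
      exact hcon c hc)
  have hk'' := Finset.mem_range.1 hk'
  set k : Fin (M + 1) := ⟨k', hk''⟩ with hk
  have hmk : m' k' = m k := hm'i k
  rw [hmk] at hkm
  have hsp : ∀ i : ℕ, 0 < s ^ i := fun i => pow_pos hs i
  have hb : ∀ i : Fin (M + 1), i ≠ k → m i * s ^ (i : ℕ) ≤ κ / (M + 1) * (m k * s ^ k') := by
    intro i hi
    rcases (hm i).eq_or_lt with h0 | h0
    · rw [← h0, zero_mul]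
      positivity
    · have h3 := hdom (log s) rfl i (Finset.mem_range.2 i.2) (by rw [hm'i]; exact h0)
        (fun h => hi (Fin.ext h))
      rw [hm'i, hmk] at h3
      have e1 : log (m i * s ^ (i : ℕ)) = log (m i) + i * log s := by
        rw [Real.log_mul h0.ne' (hsp _).ne', Real.log_pow]
      have e2 : log (κ / (M + 1) * (m k * s ^ k')) =
          log (m k) + k' * log s - log ((M + 1) / κ) := by
        rw [Real.log_mul (by positivity) (by positivity), Real.log_mul hkm.ne' (hsp _).ne',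
          Real.log_pow, Real.log_div hκ.ne' hM1.ne', Real.log_div hM1.ne' hκ.ne']
        ring
      rw [← Real.log_le_log_iff (mul_pos h0 (hsp _)) (by positivity), e1, e2]
      linarith
  have hle : κ * (m k * s ^ k') ≤ ∑ i ∈ Finset.univ.erase k, m i * s ^ (i : ℕ) := by
    have e1 : c k * s ^ (k : ℕ) = -∑ i ∈ Finset.univ.erase k, c i * s ^ (i : ℕ) := by
      have := Finset.add_sum_erase Finset.univ (fun i : Fin (M + 1) => c i * s ^ (i : ℕ))
        (Finset.mem_univ k)
      linarith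
    calc κ * (m k * s ^ k') = (κ * m k) * s ^ (k : ℕ) := by ring
      _ ≤ |c k| * s ^ (k : ℕ) := mul_le_mul_of_nonneg_right (h1 k) (hsp _).le
      _ = |c k * s ^ (k : ℕ)| := by rw [abs_mul, abs_of_pos (hsp _)]
      _ = |∑ i ∈ Finset.univ.erase k, c i * s ^ (i : ℕ)| := by rw [e1, abs_neg]
      _ ≤ ∑ i ∈ Finset.univ.erase k, |c i * s ^ (i : ℕ)| := Finset.abs_sum_le_sum_abs _ _
      _ ≤ ∑ i ∈ Finset.univ.erase k, m i * s ^ (i : ℕ) := by
        refine Finset.sum_le_sum fun i _ => ?_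
        rw [abs_mul, abs_of_pos (hsp _)]
        exact mul_le_mul_of_nonneg_right (h2 i) (hsp _).le
  have hle2 : ∑ i ∈ Finset.univ.erase k, m i * s ^ (i : ℕ) ≤
      ∑ i ∈ Finset.univ.erase k, κ / (M + 1) * (m k * s ^ k') :=
    Finset.sum_le_sum fun i hi => hb i (Finset.ne_of_mem_erase hi)
  rw [Finset.sum_const, Finset.card_erase_of_mem (Finset.mem_univ _), Finset.card_univ,
    Fintype.card_fin, Nat.add_sub_cancel, nsmul_eq_mul] at hle2
  have hA : 0 < κ * (m k * s ^ k') := mul_pos hκ (mul_pos hkm (hsp _))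
  have h5 : (M : ℝ) * (κ / (M + 1) * (m k * s ^ k')) < κ * (m k * s ^ k') := by
    have e : (M : ℝ) * (κ / (M + 1) * (m k * s ^ k')) = M / (M + 1) * (κ * (m k * s ^ k')) := by
      ring
    rw [e]
    have : (M : ℝ) / (M + 1) < 1 := by
      rw [div_lt_one hM1]
      linarith
    nlinarith
  linarith

end Pool.Agent.J4H23.HI
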