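import Pool.Agent.J4H23.HI.Num
import Pool.Agent.W960.HQ.Finq

/-! Consequences of the main theorem: whole circle, intervals, moments (the proofs are those of
`Pool/Agent/W960/HQ/Finq.lean`). -/

open Real Set MeasureTheory Topology Filter
open scoped ENNReal

namespace Pool.Agent.J4H23.HI

noncomputable section

open Pool.Agent.H709R2 (rot wedge field ClosedOrbit)
open Pool.Agent Pool.Agent.H709U Pool.Agent.W960.HQ
open Pool.Agent.H709Q (Maj)

variable {n z : ℕ} {P Q : MvPolynomial (Fin 2) ℝ}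

lemma zb_rot (h : Zb n z P Q) (θ : ℝ) : Zb n z (rP P Q θ) (rQ P Q θ) := by
  refine ⟨h.1, h.2.imp_right fun h2 => ?_⟩
  have e : {p : ℝ × ℝ | field (rP P Q θ) (rQ P Q θ) p = 0} = {p : ℝ × ℝ | field P Q p = 0} := by
    ext p
    rw [mem_ofPred_eq, mem_ofPred_eq, field_rPQ]
    constructor
    · intro h3
      by_contra h4
      exact H709R2.rot_ne_zero h4 θ h3
    · intro h3
      rw [h3, Z1aux.rot_zero']
  rw [e]
  exact h2

/-- the bound on the circle -/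
def cq (n z : ℕ) (ε : ℝ) : ℝ := 4 * 10 ^ 8 * z * (n + 1) ^ 4 * (1 + log ((n + 1) / ε)) / ε

lemma cq_pos (n : ℕ) {z : ℕ} (hz : 1 ≤ z) {ε : ℝ} (hε : 0 < ε) (hε1 : ε ≤ 1) :
    0 < cq n z ε := by
  have h := log_nonneg' n hε hε1
  have hz' : (0:ℝ) < z := by exact_mod_cast hz
  unfold cq
  have : (0:ℝ) < (n:ℝ) + 1 := by positivity
  positivity

lemma bq_half (n z : ℕ) {ε : ℝ} (hε : 0 < ε) (hε1 : ε ≤ 1) : bq n z (ε / 2) ≤ cq n z ε := by
  have hz : (0:ℝ) ≤ z := Nat.cast_nonneg z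
  have h0 := log_nonneg' n hε hε1
  have ht : (0:ℝ) < (n:ℝ) + 1 := by positivity
  have h1 : log ((n + 1) / (ε / 2)) = log 2 + log ((n + 1) / ε) := by
    rw [← Real.log_mul (by norm_num) (by positivity)]
    congr 1
    field_simp
  have h2 := Real.log_two_lt_d9
  unfold bq cq
  rw [h1]
  have e : (10:ℝ) ^ 8 * z * (n + 1) ^ 4 * (1 + (log 2 + log ((n + 1) / ε))) / (ε / 2) =
      2 * 10 ^ 8 * z * (n + 1) ^ 4 * (1 + (log 2 + log ((n + 1) / ε))) / ε := by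
    field_simp
  rw [e]
  refine div_le_div_of_nonneg_right ?_ hε.le
  have h3 : 0 ≤ 10 ^ 8 * z * ((n:ℝ) + 1) ^ 4 := by positivity
  have h4 : 2 * (1 + (log 2 + log ((n + 1) / ε))) ≤ 4 * (1 + log ((n + 1) / ε)) := by linarith
  have := mul_le_mul_of_nonneg_left h4 h3
  nlinarith

/-- the bound on every interval of angles of length `π` -/
lemma measq_pi (hP : P.totalDegree ≤ n) (hQ : Q.totalDegree ≤ n) (hne : P ≠ 0 ∨ Q ≠ 0) (hzb : Zb n z P Q)
    {ε : ℝ} (hε : 0 < ε) (hε1 : ε ≤ 1) (θ : ℝ) :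
    volume {α | α ∈ Ioo θ (θ + π) ∧ ENNReal.ofReal (bq n z ε) <
      ((Cl P Q α).encard : ℝ≥0∞)} ≤ ENNReal.ofReal ε := by
  have h1 := mainq (degree_rP hP hQ θ) (degree_rQ hP hQ θ) (ne_rPQ hne θ) (zb_rot hzb θ) hε hε1
  have h2 : {α | α ∈ Ioo 0 π ∧ ENNReal.ofReal (bq n z ε) <
      ((Cl (rP P Q θ) (rQ P Q θ) α).encard : ℝ≥0∞)} = (fun α => θ + α) ⁻¹'
      {α | α ∈ Ioo θ (θ + π) ∧ ENNReal.ofReal (bq n z ε) <
      ((Cl P Q α).encard : ℝ≥0∞)} := by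
    ext α
    simp only [mem_ofPred_eq, mem_preimage, Cl_rPQ, mem_Ioo]
    constructor
    · rintro ⟨⟨h3, h4⟩, h5⟩
      exact ⟨⟨by linarith, by linarith⟩, h5⟩
    · rintro ⟨⟨h3, h4⟩, h5⟩
      exact ⟨⟨by linarith, by linarith⟩, h5⟩
  rw [h2, measure_preimage_add] at h1
  exact h1

/-- the bound on the whole circle -/
lemma measq_two_pi (hP : P.totalDegree ≤ n) (hQ : Q.totalDegree ≤ n)
    (hne : P ≠ 0 ∨ Q ≠ 0) (hzb : Zb n z P Q) {ε : ℝ} (hε : 0 < ε) (hε1 : ε ≤ 1) :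
    volume {α | α ∈ Ioo 0 (2 * π) ∧ ENNReal.ofReal (cq n z ε) <
      ((Cl P Q α).encard : ℝ≥0∞)} ≤ ENNReal.ofReal ε := by
  have h0 := bq_half n z hε hε1
  have h1 := measq_pi hP hQ hne hzb (show 0 < ε / 2 by positivity) (by linarith) 0
  have h2 := measq_pi hP hQ hne hzb (show 0 < ε / 2 by positivity) (by linarith) π
  have hsub : {α | α ∈ Ioo 0 (2 * π) ∧ ENNReal.ofReal (cq n z ε) <
      ((Cl P Q α).encard : ℝ≥0∞)} ⊆
      {α | α ∈ Ioo 0 (0 + π) ∧ ENNReal.ofReal (bq n z (ε / 2)) <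
        ((Cl P Q α).encard : ℝ≥0∞)} ∪
      {α | α ∈ Ioo π (π + π) ∧ ENNReal.ofReal (bq n z (ε / 2)) <
        ((Cl P Q α).encard : ℝ≥0∞)} ∪ {π} := by
    rintro α ⟨⟨h3, h4⟩, h5⟩
    have h6 := lt_of_le_of_lt (ENNReal.ofReal_le_ofReal h0) h5
    rcases lt_trichotomy α π with h7 | h7 | h7
    · exact Or.inl (Or.inl ⟨⟨h3, by linarith⟩, h6⟩)
    · exact Or.inr h7
    · exact Or.inl (Or.inr ⟨⟨h7, by linarith⟩, h6⟩)
  refine (measure_mono hsub).trans ((measure_union_le _ _).trans ?_)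
  rw [Real.volume_singleton, add_zero]
  refine (measure_union_le _ _).trans ((add_le_add h1 h2).trans ?_)
  rw [← ENNReal.ofReal_add (by positivity) (by positivity)]
  apply ENNReal.ofReal_le_ofReal
  linarith

/-- every interval of angles contains good angles -/
lemma existsq_angle_near (hP : P.totalDegree ≤ n) (hQ : Q.totalDegree ≤ n)
    (hne : P ≠ 0 ∨ Q ≠ 0) (hzb : Zb n z P Q) {ε : ℝ} (hε : 0 < ε) (hε1 : ε ≤ 1) (θ : ℝ) :
    ∃ α, α ∈ Ioo θ (θ + ε) ∧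
      ((Cl P Q α).encard : ℝ≥0∞) ≤ ENNReal.ofReal (cq n z ε) := by
  by_contra hcon
  push Not at hcon
  have h0 := bq_half n z hε hε1
  have h1 := measq_pi hP hQ hne hzb (show 0 < ε / 2 by positivity) (by linarith) θ
  have h2 : volume (Ioo θ (θ + ε)) ≤ ENNReal.ofReal (ε / 2) := by
    refine le_trans (measure_mono ?_) h1
    intro α hα
    refine ⟨⟨hα.1, ?_⟩, lt_of_le_of_lt (ENNReal.ofReal_le_ofReal h0) (hcon α hα)⟩
    have := Real.pi_gt_three
    linarith [hα.2]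
  rw [Real.volume_Ioo, ENNReal.ofReal_le_ofReal_iff (by positivity)] at h2
  linarith

/-- the bound at the dyadic scales -/
lemma cq_dyadic (n z k : ℕ) : cq n z (((1:ℝ) / 2) ^ (k + 1)) ≤
    8 * 10 ^ 8 * z * (n + 1) ^ 5 * (k + 2) * 2 ^ k := by
  have hz : (0:ℝ) ≤ z := Nat.cast_nonneg z
  have ht : (0:ℝ) < (n:ℝ) + 1 := by positivity
  have h1 := log_half_pow n k
  unfold cq
  have e : ∀ x : ℝ, 4 * 10 ^ 8 * z * ((n:ℝ) + 1) ^ 4 * x / ((1:ℝ) / 2) ^ (k + 1) =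
      8 * 10 ^ 8 * z * (n + 1) ^ 4 * x * 2 ^ k := by
    intro x
    rw [one_div, inv_pow, div_inv_eq_mul, pow_succ]
    ring
  rw [e]
  calc 8 * 10 ^ 8 * z * ((n:ℝ) + 1) ^ 4 * (1 + log ((n + 1) / ((1:ℝ) / 2) ^ (k + 1))) * (2:ℝ) ^ k
      ≤ 8 * 10 ^ 8 * z * ((n:ℝ) + 1) ^ 4 * ((n + 1) * (k + 2)) * (2:ℝ) ^ k := by gcongr
    _ = 8 * 10 ^ 8 * z * ((n:ℝ) + 1) ^ 5 * (k + 2) * (2:ℝ) ^ k := by ring

lemma cq_ge (n : ℕ) {z : ℕ} (hz : 1 ≤ z) (k : ℕ) : (2:ℝ) ^ k ≤ cq n z (((1:ℝ) / 2) ^ k) := by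
  have hn : (0:ℝ) ≤ (n:ℝ) := Nat.cast_nonneg n
  have hz' : (1:ℝ) ≤ z := by exact_mod_cast hz
  have h0 := log_nonneg' n (ε := ((1:ℝ) / 2) ^ k) (by positivity)
    (pow_le_one₀ (by norm_num) (by norm_num))
  unfold cq
  have e : ∀ x : ℝ, x / ((1:ℝ) / 2) ^ k = x * 2 ^ k := by
    intro x
    rw [one_div, inv_pow, div_inv_eq_mul]
  rw [e (4 * 10 ^ 8 * z * ((n:ℝ) + 1) ^ 4 * (1 + log ((n + 1) / ((1:ℝ) / 2) ^ k)))]
  have h1 : (1:ℝ) ≤ z * ((n:ℝ) + 1) ^ 4 := one_le_mul_of_one_le_of_one_le hz'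
    (one_le_pow₀ (by linarith))
  have h2 : (1:ℝ) ≤ 4 * 10 ^ 8 * z * ((n:ℝ) + 1) ^ 4 * (1 + log ((n + 1) / ((1:ℝ) / 2) ^ k)) := by
    have h3 : (1:ℝ) ≤ 4 * 10 ^ 8 * z * ((n:ℝ) + 1) ^ 4 := by linarith
    nlinarith
  have h4 : (0:ℝ) ≤ 2 ^ k := by positivity
  nlinarith

lemma cq_one_le (n z : ℕ) : cq n z (((1:ℝ) / 2) ^ 0) ≤ 4 * 10 ^ 8 * z * (n + 1) ^ 5 := by
  have hz : (0:ℝ) ≤ z := Nat.cast_nonneg z
  have ht : (0:ℝ) < (n:ℝ) + 1 := by positivity
  unfold cq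
  rw [pow_zero, div_one, div_one]
  have h1 : log ((n:ℝ) + 1) ≤ n := by
    have := Real.log_le_sub_one_of_pos ht
    linarith
  have h2 : 1 + log ((n:ℝ) + 1) ≤ (n:ℝ) + 1 := by linarith
  calc 4 * 10 ^ 8 * z * ((n:ℝ) + 1) ^ 4 * (1 + log ((n:ℝ) + 1)) ≤
        4 * 10 ^ 8 * z * ((n:ℝ) + 1) ^ 4 * ((n:ℝ) + 1) :=
        mul_le_mul_of_nonneg_left h2 (by positivity)
    _ = 4 * 10 ^ 8 * z * ((n:ℝ) + 1) ^ 5 := by ring

/-- **moments of order less than one** -/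
theorem moments (hP : P.totalDegree ≤ n) (hQ : Q.totalDegree ≤ n) (hne : P ≠ 0 ∨ Q ≠ 0) (hzb : Zb n z P Q)
    {q : ℝ} (hq0 : 0 < q) (hq1 : q < 1) :
    ∃ g : ℝ → ℝ≥0∞, Measurable g ∧
      (∀ α ∈ Ioo 0 (2 * π), (((Cl P Q α).encard : ℕ∞) : ℝ≥0∞) ^ q ≤ g α) ∧
      ∫⁻ α in Ioo 0 (2 * π), g α ≤ ENNReal.ofReal (10 ^ 10 * z * (n + 1) ^ 5 / (1 - q) ^ 2) := by
  classical
  set κ : ℝ := 1 - q with hκ
  have hκ0 : 0 < κ := by linarith
  have hκ1 : κ ≤ 1 := by linarith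
  set N : ℝ → ℝ≥0∞ := fun α => (((Cl P Q α).encard : ℕ∞) : ℝ≥0∞) with hN
  set T : ℕ → ℝ := fun j => cq n z (((1:ℝ) / 2) ^ j) with hT
  have hTge : ∀ j, (2:ℝ) ^ j ≤ T j := fun j => cq_ge n hzb.1 j
  have hT1 : ∀ j, 1 ≤ T j := fun j => (one_le_pow₀ (by norm_num)).trans (hTge j)
  set bd : ℕ → Set ℝ := fun j => {α | α ∈ Ioo 0 (2 * π) ∧ ENNReal.ofReal (T j) < N α} with hbd
  have hbdv : ∀ j, volume (bd j) ≤ ENNReal.ofReal (((1:ℝ) / 2) ^ j) := fun j =>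
    measq_two_pi hP hQ hne hzb (by positivity) (pow_le_one₀ (by norm_num) (by norm_num))
  set E : ℕ → Set ℝ := fun j => toMeasurable volume (bd j) with hE
  have hEm : ∀ j, MeasurableSet (E j) := fun j => measurableSet_toMeasurable _ _
  have hEv : ∀ j, volume (E j) ≤ ENNReal.ofReal (((1:ℝ) / 2) ^ j) := fun j => by
    rw [hE]
    simp only [measure_toMeasurable]
    exact hbdv j
  have hfm : ∀ j, Measurable ((E j).indicator fun _ : ℝ => ENNReal.ofReal (T (j + 1)) ^ q) :=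
    fun j => measurable_const.indicator (hEm j)
  refine ⟨fun α => ENNReal.ofReal (T 0) ^ q +
    ∑' j, (E j).indicator (fun _ : ℝ => ENNReal.ofReal (T (j + 1)) ^ q) α, ?_, ?_, ?_⟩
  · exact measurable_const.add (Measurable.tsum hfm)
  · intro α hα
    change N α ^ q ≤ _
    by_cases h0 : N α ≤ ENNReal.ofReal (T 0)
    · exact (ENNReal.rpow_le_rpow h0 hq0.le).trans le_self_add
    · refine le_trans ?_ le_add_self
      by_cases htop : N α = ⊤
      · have h1 : ∀ j, (1 : ℝ≥0∞) ≤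
            (E j).indicator (fun _ : ℝ => ENNReal.ofReal (T (j + 1)) ^ q) α := by
          intro j
          have h2 : α ∈ E j := subset_toMeasurable _ _ ⟨hα, by rw [htop]; exact ENNReal.ofReal_lt_top⟩
          rw [indicator_of_mem h2]
          have h3 : (1 : ℝ≥0∞) ≤ ENNReal.ofReal (T (j + 1)) := by
            rw [← ENNReal.ofReal_one]
            exact ENNReal.ofReal_le_ofReal (hT1 _)
          exact ENNReal.one_le_rpow h3 hq0
        have h4 : (⊤ : ℝ≥0∞) ≤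
            ∑' j, (E j).indicator (fun _ : ℝ => ENNReal.ofReal (T (j + 1)) ^ q) α := by
          rw [← ENNReal.tsum_const_eq_top_of_ne_zero (α := ℕ) (c := 1) one_ne_zero]
          exact ENNReal.tsum_le_tsum h1
        exact le_top.trans h4
      · have hex : ∃ j, N α ≤ ENNReal.ofReal (T j) := by
          obtain ⟨j, hj⟩ := pow_unbounded_of_one_lt (N α).toReal (one_lt_two : (1:ℝ) < 2)
          refine ⟨j, ?_⟩
          rw [← ENNReal.ofReal_toReal htop]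
          exact ENNReal.ofReal_le_ofReal (hj.le.trans (hTge j))
        set j := Nat.find hex with hj
        have hj1 : N α ≤ ENNReal.ofReal (T j) := Nat.find_spec hex
        have hj0 : j ≠ 0 := fun h => h0 (by rw [h] at hj1; exact hj1)
        obtain ⟨i, hi⟩ := Nat.exists_eq_succ_of_ne_zero hj0
        have hi1 : ¬ N α ≤ ENNReal.ofReal (T i) := Nat.find_min hex (by rw [← hj, hi]; exact Nat.lt_succ_self i)
        have h2 : α ∈ E i := subset_toMeasurable _ _ ⟨hα, not_le.1 hi1⟩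
        refine le_trans ?_ (ENNReal.le_tsum i)
        rw [indicator_of_mem h2]
        rw [hi] at hj1
        exact ENNReal.rpow_le_rpow hj1 hq0.le
  · rw [lintegral_add_left measurable_const, lintegral_const, lintegral_tsum fun j => (hfm j).aemeasurable]
    have hpi := Real.pi_lt_d2
    have hpi0 := Real.pi_pos
    set D : ℝ := 8 * 10 ^ 8 * z * (n + 1) ^ 5 with hD
    have hn0 : (0:ℝ) ≤ n := Nat.cast_nonneg n
    have hz' : (1:ℝ) ≤ z := by exact_mod_cast hzb.1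
    have hz0 : (0:ℝ) ≤ z := by linarith
    have hp9 : (1:ℝ) ≤ z * ((n:ℝ) + 1) ^ 5 := one_le_mul_of_one_le_of_one_le hz'
      (one_le_pow₀ (by linarith))
    have hD1 : 1 ≤ D := by rw [hD]; linarith
    have hself : ∀ x : ℝ, 1 ≤ x → ENNReal.ofReal x ^ q ≤ ENNReal.ofReal x := by
      intro x hx
      have h1 : (1 : ℝ≥0∞) ≤ ENNReal.ofReal x := by
        rw [← ENNReal.ofReal_one]
        exact ENNReal.ofReal_le_ofReal hx
      calc ENNReal.ofReal x ^ q ≤ ENNReal.ofReal x ^ (1:ℝ) :=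
            ENNReal.rpow_le_rpow_of_exponent_le h1 hq1.le
        _ = ENNReal.ofReal x := ENNReal.rpow_one _
    have hA : ENNReal.ofReal (T 0) ^ q * (volume.restrict (Ioo 0 (2 * π))) univ ≤
        ENNReal.ofReal (4 * 10 ^ 8 * z * (n + 1) ^ 5 * 6.3) := by
      rw [Measure.restrict_apply_univ, Real.volume_Ioo, sub_zero]
      have h1 : ENNReal.ofReal (T 0) ^ q ≤ ENNReal.ofReal (4 * 10 ^ 8 * z * (n + 1) ^ 5) :=
        (hself _ (hT1 0)).trans (ENNReal.ofReal_le_ofReal (cq_one_le n z))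
      have h2 : ENNReal.ofReal (2 * π) ≤ ENNReal.ofReal 6.3 :=
        ENNReal.ofReal_le_ofReal (by linarith)
      rw [ENNReal.ofReal_mul (p := 4 * 10 ^ 8 * z * ((n:ℝ) + 1) ^ 5) (by positivity)]
      exact mul_le_mul' h1 h2
    have hB : ∑' j, ∫⁻ α in Ioo 0 (2 * π),
        (E j).indicator (fun _ : ℝ => ENNReal.ofReal (T (j + 1)) ^ q) α ≤
        ENNReal.ofReal (8 * D / κ ^ 2) := by
      refine le_trans (ENNReal.tsum_le_tsum fun j => ?_) (dyadic_sum hκ0 hκ1 (by linarith))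
      have h1 : ∫⁻ α in Ioo 0 (2 * π),
          (E j).indicator (fun _ : ℝ => ENNReal.ofReal (T (j + 1)) ^ q) α ≤
          ENNReal.ofReal (T (j + 1)) ^ q * volume (E j) := by
        refine (setLIntegral_le_lintegral _ _).trans ?_
        rw [lintegral_indicator (hEm j), setLIntegral_const]
      refine h1.trans ?_
      have h2 : ENNReal.ofReal (T (j + 1)) ^ q ≤
          ENNReal.ofReal (D * (j + 2)) * ENNReal.ofReal ((2:ℝ) ^ j) ^ q := by
        have h3 : ENNReal.ofReal (T (j + 1)) ≤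
            ENNReal.ofReal (D * (j + 2)) * ENNReal.ofReal ((2:ℝ) ^ j) := by
          rw [← ENNReal.ofReal_mul (by positivity)]
          exact ENNReal.ofReal_le_ofReal (cq_dyadic n z j)
        refine (ENNReal.rpow_le_rpow h3 hq0.le).trans ?_
        rw [ENNReal.mul_rpow_of_nonneg _ _ hq0.le]
        refine mul_le_mul' (hself _ ?_) le_rfl
        have hj0 : (0:ℝ) ≤ j := Nat.cast_nonneg j
        nlinarith
      have h4 : ENNReal.ofReal ((2:ℝ) ^ j) ^ q * ENNReal.ofReal (((1:ℝ) / 2) ^ j) =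
          ENNReal.ofReal ((((1:ℝ) / 2) ^ κ) ^ j) := by
        rw [ENNReal.ofReal_rpow_of_nonneg (by positivity) hq0.le, ← ENNReal.ofReal_mul (by positivity)]
        congr 1
        rw [← half_pow_rpow, hκ, Real.rpow_sub (by positivity), Real.rpow_one]
        have h5 : (((1:ℝ) / 2) ^ j) = ((2:ℝ) ^ j)⁻¹ := by rw [one_div, inv_pow]
        rw [h5, Real.inv_rpow (by positivity)]
        field_simp
      calc ENNReal.ofReal (T (j + 1)) ^ q * volume (E j)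
          ≤ (ENNReal.ofReal (D * (j + 2)) * ENNReal.ofReal ((2:ℝ) ^ j) ^ q) *
            ENNReal.ofReal (((1:ℝ) / 2) ^ j) := mul_le_mul' h2 (hEv j)
        _ = ENNReal.ofReal (D * (j + 2)) * ENNReal.ofReal ((((1:ℝ) / 2) ^ κ) ^ j) := by
            rw [mul_assoc, h4]
        _ = ENNReal.ofReal (D * ((j + 2) * (((1:ℝ) / 2) ^ κ) ^ j)) := by
            rw [← ENNReal.ofReal_mul (by positivity)]
            congr 1
            ring
    refine (add_le_add hA hB).trans ?_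
    rw [← ENNReal.ofReal_add (by positivity) (by positivity)]
    apply ENNReal.ofReal_le_ofReal
    have h6 : 4 * 10 ^ 8 * z * ((n:ℝ) + 1) ^ 5 * 6.3 ≤ 4 * 10 ^ 8 * z * ((n:ℝ) + 1) ^ 5 * 6.3 / κ ^ 2 := by
      rw [le_div_iff₀ (by positivity)]
      have h7 : κ ^ 2 ≤ 1 := pow_le_one₀ hκ0.le hκ1
      have h8 : (0:ℝ) ≤ 4 * 10 ^ 8 * z * ((n:ℝ) + 1) ^ 5 * 6.3 := by positivity
      exact mul_le_of_le_one_right h8 h7
    refine (add_le_add h6 le_rfl).trans ?_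
    rw [← add_div]
    refine div_le_div_of_nonneg_right ?_ (by positivity)
    rw [hD]
    nlinarith

end

end Pool.Agent.J4H23.HI
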