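import Pool.Agent.W960.HQ.Comp
import Pool.Agent.W960.HQ.Steep
import Pool.Agent.J4H23.HI.E4

/-! The key lemma with fewer windows of logarithmic width (the proofs are those of `common` in
`Pool/Agent/H709U/K7.lean` and of `Pool/Agent/W960/HQ/Key.lean`). -/

open Real Set MeasureTheory Topology Filter
open scoped ENNReal

namespace Pool.Agent.J4H23.HI

open Pool.Agent.H709R2 (rot wedge field ClosedOrbit)
open Pool.Agent Pool.Agent.H709U Pool.Agent.W960.HQ

variable {n : ℕ} {P Q : MvPolynomial (Fin 2) ℝ} {p : ℝ × ℝ}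

/-- the common part of the two cases -/
lemma common (e4 : S_E4) {n : ℕ} {P Q K f g : MvPolynomial (Fin 2) ℝ} {p : ℝ × ℝ}
    {Z : Finset (ℝ × ℝ)} (hZ : ∀ z, field P Q z = 0 → z ∈ Z)
    (hK : K ≠ 0) (hKd : K.totalDegree ≤ 4 * n + 1) (hf : f.totalDegree ≤ n + 1)
    (hg : g.totalDegree ≤ n + 1)
    (hfe : ∀ z : ℝ × ℝ, MvPolynomial.eval ![z.1, z.2] f = wedge (z - p) (field P Q z))
    (hge : ∀ z : ℝ × ℝ, MvPolynomial.eval ![z.1, z.2] g = dot (z - p) (field P Q z))
    {δ : ℝ} (hδ : 0 < δ) (hδ1 : δ ≤ 1) :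
    ∃ (R : Finset ℂ) (S : Finset ℝ), R.card ≤ (nM n + 1) * nN n ∧
      S.card ≤ (nM n + 1) + Z.card ∧
      ∀ α : ℝ, (∀ a ∈ R, 2 * δ ≤ ‖ee α - a‖) → ∀ α' : ℝ, |α' - α| ≤ δ / 2 →
        ∀ z : ℝ × ℝ, z ≠ p → (∀ c ∈ S, L0 n δ < |lg p z - c|) →
          field P Q z ≠ 0 ∧
            (V (field P Q) p α' z = 0 → MvPolynomial.eval ![z.1, z.2] K ≠ 0) := by
  classical
  obtain ⟨R, S₀, hR, hS, h⟩ := e4 n K f g p hK hKd hf hg δ hδ hδ1
  refine ⟨R, S₀ ∪ Z.image (lg p), hR, ?_, ?_⟩
  · refine (Finset.card_union_le _ _).trans ?_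
    exact add_le_add hS Finset.card_image_le
  · intro α hα α' hα' z hz hfar
    have hne : field P Q z ≠ 0 := by
      intro h0
      have h1 := hfar (lg p z) (Finset.mem_union_right _ (Finset.mem_image_of_mem _ (hZ z h0)))
      rw [sub_self, abs_zero] at h1
      exact absurd h1 (not_lt.2 (L0_nonneg hδ hδ1))
    refine ⟨hne, fun hV hKz => ?_⟩
    obtain ⟨c, hc, hc2⟩ := h α' (by
      intro a ha
      have h1 := hα a ha
      have h2 := norm_ee_sub α α'
      have h3 : ‖ee α - a‖ ≤ ‖ee α - ee α'‖ + ‖ee α' - a‖ := by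
        have := norm_sub_le_norm_sub_add_norm_sub (ee α) (ee α') a
        exact this
      rw [abs_sub_comm] at hα'
      linarith) z hz hKz (by
        rw [hfe, hge, ← V_zero]
        exact hV) (by
        rw [hfe, hge]
        by_contra hcon
        rw [not_or, not_not, not_not] at hcon
        have h1 := VW_sq (field P Q) p 0 z
        have h2 : V (field P Q) p 0 z = wedge (z - p) (field P Q z) := by rw [V_zero]; simp
        have h3 : W (field P Q) p 0 z = dot (z - p) (field P Q z) := by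
          unfold W rot; simp
        rw [h2, h3, hcon.1, hcon.2] at h1
        have h4 := H709R2.sq_pos hne
        have h5 := H709R2.sq_pos (sub_ne_zero.2 hz)
        have := mul_pos h5 h4
        rw [← h1] at this
        norm_num at this)
    exact absurd hc2 (not_le.2 (hfar c (Finset.mem_union_left _ hc)))

/-- between the corners of the envelope one of the parts dominates -/
lemma exists_centers (D : Parts n P Q p) : ∃ S : Finset ℝ, S.card ≤ n + 1 ∧
    ∀ s : ℝ, 0 < s → ∀ I : Set ℝ, I.OrdConnected → I.Nonempty →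
      (∃ k ∈ Finset.range (n + 1), 0 < D.m k) → (∀ u ∈ I, ∀ c ∈ S, s < |u - c|) →
      ∃ k ∈ Finset.range (n + 1), 0 < D.m k ∧ ∀ u ∈ I, D.Dom s k u := by
  obtain ⟨S, hS, h⟩ := np (Finset.range (n + 1)) D.m
  rw [Finset.card_range] at hS
  refine ⟨S, hS, fun s hs I hI hne hpos hfar => ?_⟩
  obtain ⟨k, hk, hm, hd⟩ := h s hs.le I hI hne hpos hfar
  refine ⟨k, hk, hm, fun u hu j hj hjk => ?_⟩
  rcases (D.m_nonneg j).eq_or_lt with h0 | h0
  · rw [← h0, mul_zero]
    positivity
  have h1 := hd u hu j hj h0 hjk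
  have hlogs : ∀ (i : ℕ), 0 < D.m i → exp u ^ i * D.m i = exp (i * u + log (D.m i)) := by
    intro i hi
    rw [exp_add, exp_log hi, ← exp_nat_mul]
  rw [hlogs j h0, hlogs k hm, ← exp_add, exp_le_exp]
  linarith

/-- the corners of the envelope -/
noncomputable def cen (D : Parts n P Q p) : Finset ℝ := (exists_centers D).choose

lemma card_cen (D : Parts n P Q p) : (cen D).card ≤ n + 1 := (exists_centers D).choose_spec.1

lemma exists_dom (D : Parts n P Q p) {s : ℝ} (hs : 0 < s) {I : Set ℝ} (hI : I.OrdConnected)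
    (hne : I.Nonempty) (hpos : ∃ k ∈ Finset.range (n + 1), 0 < D.m k)
    (hfar : ∀ u ∈ I, ∀ c ∈ cen D, s < |u - c|) :
    ∃ k ∈ Finset.range (n + 1), 0 < D.m k ∧ ∀ u ∈ I, D.Dom s k u :=
  (exists_centers D).choose_spec.2 s hs I hI hne hpos hfar

/-- one homogeneous part dominates on a closed orbit outside the windows -/
lemma dom_orbit (D : Parts n P Q p) (hpos : ∃ k ∈ Finset.range (n + 1), 0 < D.m k) {s : ℝ}
    (hs : 0 < s) {α : ℝ} {C : Set (ℝ × ℝ)} (hC : ClosedOrbit (rf (field P Q) α) C) (hpC : p ∉ C)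
    (hfar : ∀ z ∈ C, ∀ c ∈ cen D, s < |lg p z - c|) :
    ∃ k ∈ Finset.range (n + 1), 0 < D.m k ∧ ∀ z ∈ C, D.Dom s k (lg p z) := by
  obtain ⟨γ, T, hO, hCr⟩ := m0 (field P Q) (H709R2.contDiff_field P Q) α C hC
  have hγ : Continuous γ := continuous_iff_continuousAt.mpr fun t => (hO.ode t).continuousAt
  have hne : ∀ t, γ t ≠ p := fun t h => hpC (by rw [hCr]; exact ⟨t, h⟩)
  have hc : Continuous fun t => lg p (γ t) := by
    unfold lg H709R2.sq
    refine Continuous.div_const ?_ _
    refine Continuous.log (by fun_prop) fun t => ?_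
    exact (H709R2.sq_pos (sub_ne_zero.2 (hne t))).ne'
  have hI : (range fun t => lg p (γ t)).OrdConnected :=
    (isPreconnected_range hc).ordConnected
  obtain ⟨k, hk, hm, hd⟩ := exists_dom D hs hI ⟨_, ⟨0, rfl⟩⟩ hpos (by
    rintro _ ⟨t, rfl⟩ c hcc
    exact hfar (γ t) (by rw [hCr]; exact ⟨t, rfl⟩) c hcc)
  refine ⟨k, hk, hm, fun z hz => ?_⟩
  rw [hCr] at hz
  obtain ⟨t, rfl⟩ := hz
  exact hd _ ⟨t, rfl⟩

/-- the key lemma -/
theorem key (hP : P.totalDegree ≤ n) (hQ : Q.totalDegree ≤ n) {Z : Finset (ℝ × ℝ)}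
    (hZ : ∀ z, field P Q z = 0 → z ∈ Z) (D : Parts n P Q p)
    (hpos : ∃ k ∈ Finset.range (n + 1), 0 < D.m k) {δ : ℝ} (hδ : 0 < δ) (hδ1 : δ ≤ 1) :
    ∃ (R : Finset ℂ) (S : Finset ℝ), R.card ≤ (nM n + 1) * nN n + (n + 1) ∧
      S.card ≤ (nM n + 1) + Z.card + (n + 1) ∧
      ∀ α : ℝ, (∀ a ∈ R, 2 * δ ≤ ‖ee α - a‖) → ∀ C, ClosedOrbit (rf (field P Q) α) C → p ∉ C →
        (∀ z ∈ C, ∀ c ∈ S, Lw n δ < |lg p z - c|) →
        (∀ z ∈ C, (δ / 2) ^ 2 * W (field P Q) p α z ^ 2 < V (field P Q) p α z ^ 2) ∧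
        ∃ k ∈ Finset.range (n + 1), 0 < D.m k ∧ ∀ z ∈ C, D.Dom (sn n δ) k (lg p z) := by
  classical
  have hX2 : ContDiff ℝ 2 (field P Q) := H709R2.contDiff_field P Q
  obtain ⟨a, b, f, g, s, ha, hb, hf, hg, hs, hev⟩ := k4 n P Q hP hQ p
  have hfe := fun z => (hev z).2.2.1
  have hge := fun z => (hev z).2.2.2.1
  set x := δ / 2 with hx
  have hxpos : 0 < x := by positivity
  have hsn := sn_pos (n := n) hδ hδ1
  have hL0 := Pool.Agent.H709U.L0_nonneg (n := n) hδ hδ1
  have hX1 : (MvPolynomial.X 1 - MvPolynomial.C p.2 : MvPolynomial (Fin 2) ℝ) ≠ 0 := by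
    intro h0
    have := congrArg (MvPolynomial.eval ![0, p.2 + 1]) h0
    simp at this
  have hX1d : (MvPolynomial.X 1 - MvPolynomial.C p.2 : MvPolynomial (Fin 2) ℝ).totalDegree ≤ 1 := by
    refine (MvPolynomial.totalDegree_sub _ _).trans ?_
    simp
  set E : Finset ℂ := (Finset.range (n + 1)).image D.exc with hE
  have hEc : E.card ≤ n + 1 := by
    refine Finset.card_image_le.trans ?_
    rw [Finset.card_range]
  by_cases hcase : ∃ β, (β = x ∨ β = x / 2) ∧ a ^ 2 - MvPolynomial.C (β ^ 2) * b ^ 2 ≠ 0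
  · obtain ⟨β, hβ, hK2⟩ := hcase
    have hβ0 : 0 < β := by rcases hβ with h | h <;> rw [h] <;> positivity
    have hβx : β ≤ x := by rcases hβ with h | h <;> rw [h] <;> linarith
    have hβδ : δ / 4 ≤ β := by rcases hβ with h | h <;> rw [h, hx] <;> linarith
    set K := a ^ 2 - MvPolynomial.C (β ^ 2) * b ^ 2 with hK
    have hKd : K.totalDegree ≤ 4 * n + 1 := by
      have h1 : (a ^ 2 - MvPolynomial.C (β ^ 2) * b ^ 2).totalDegree ≤ 4 * n := by
        refine (MvPolynomial.totalDegree_sub _ _).trans (max_le ?_ ?_)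
        · refine (MvPolynomial.totalDegree_pow _ _).trans ?_
          linarith
        · refine (MvPolynomial.totalDegree_mul _ _).trans ?_
          rw [MvPolynomial.totalDegree_C, zero_add]
          refine (MvPolynomial.totalDegree_pow _ _).trans ?_
          linarith
      exact le_trans h1 (by omega)
    have hKe : ∀ z : ℝ × ℝ, MvPolynomial.eval ![z.1, z.2] K =
        A0 (field P Q) p z ^ 2 - β ^ 2 * B0 (field P Q) p z ^ 2 := by
      intro z
      rw [hK, map_sub, map_mul, map_pow, map_pow _ b, (hev z).1, (hev z).2.1]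
      simp
    obtain ⟨R, S, hR, hS, hcom⟩ := common e4' hZ hK2 hKd hf hg hfe hge hδ hδ1
    refine ⟨R ∪ E, S ∪ cen D, ?_, ?_, ?_⟩
    · exact (Finset.card_union_le _ _).trans (add_le_add hR hEc)
    · exact (Finset.card_union_le _ _).trans (add_le_add hS (card_cen D))
    intro α hαRE C hC hpC hfarSD
    have hα : ∀ a ∈ R, 2 * δ ≤ ‖ee α - a‖ := fun a ha => hαRE a (Finset.mem_union_left _ ha)
    have hαE : ∀ k ∈ Finset.range (n + 1), 2 * δ ≤ ‖ee α - D.exc k‖ := fun k hk =>
      hαRE _ (Finset.mem_union_right _ (Finset.mem_image_of_mem _ hk))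
    have hfar : ∀ z ∈ C, ∀ c ∈ S, Lw n δ < |lg p z - c| := fun z hz c hc =>
      hfarSD z hz c (Finset.mem_union_left _ hc)
    have hfarD : ∀ z ∈ C, ∀ c ∈ cen D, Lw n δ < |lg p z - c| := fun z hz c hc =>
      hfarSD z hz c (Finset.mem_union_right _ hc)
    refine ⟨?_, dom_orbit D hpos hsn hC hpC fun z hz c hc => ?_⟩
    swap
    · have := hfarD z hz c hc
      unfold Lw at this
      linarith
    obtain ⟨γ, T, horb, rfl⟩ := m0 (field P Q) hX2 α C hC
    have hne : ∀ t, γ t ≠ p := fun t h => hpC ⟨t, h⟩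
    have hmain := k2 (field P Q) hX2 p α β x hβ0 hβx γ T horb hne (by
      intro t hband
      set z := γ t with hz
      have hzp : z ≠ p := hne t
      have hfz := hfar z ⟨t, rfl⟩
      have hfzD := hfarD z ⟨t, rfl⟩
      unfold Lw at hfz hfzD
      have hfz' : ∀ c ∈ S, L0 n δ < |lg p z - c| := fun c hc => by
        have := hfz c hc
        linarith
      have hXz : field P Q z ≠ 0 := (hcom α hα α (by simp; positivity) z hzp hfz').1
      have hW : W (field P Q) p α z ≠ 0 := by
        intro h0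
        have h1 := VW_sq (field P Q) p α z
        rw [h0] at h1 hband
        have h2 := mul_pos (H709R2.sq_pos (sub_ne_zero.2 hzp)) (H709R2.sq_pos hXz)
        rw [← h1] at h2
        nlinarith
      obtain ⟨θ, hθ, hθ2⟩ := exists_angle hW hxpos.le hband
      rw [← V_add] at hθ2
      set α' := α + θ with hα'
      have hαα' : |α' - α| ≤ δ / 2 := by rw [hα']; simpa using hθ
      have hKz := (hcom α hα α' hαα' z hzp hfz').2 hθ2
      rw [hKe] at hKz
      by_contra hcon
      rw [not_lt] at hcon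
      have hlt : β ^ 2 * B0 (field P Q) p z ^ 2 < A0 (field P Q) p z ^ 2 :=
        lt_of_le_of_ne hcon (fun h => hKz (by rw [h, sub_self]))
      obtain ⟨t₁, ht₁⟩ := exists_pt hzp
      set F : ℝ × ℝ → ℝ := fun q => V (field P Q) p α' (pt p q.1 q.2) with hF
      set Fu : ℝ × ℝ → ℝ := fun q => fderiv ℝ (V (field P Q) p α') (pt p q.1 q.2)
        (pt p q.1 q.2 - p) with hFu
      set Ft : ℝ × ℝ → ℝ := fun q => fderiv ℝ (V (field P Q) p α') (pt p q.1 q.2)
        (J (pt p q.1 q.2 - p)) with hFt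
      have hVc : ContDiff ℝ 2 (V (field P Q) p α') := Pool.Agent.H709U.hasFDerivAt_V hX2 p α'
      have hfc : Continuous (fderiv ℝ (V (field P Q) p α')) :=
        hVc.continuous_fderiv (by norm_num)
      have hder : ∀ q, HasFDerivAt F (Fu q • ContinuousLinearMap.fst ℝ ℝ ℝ +
          Ft q • ContinuousLinearMap.snd ℝ ℝ ℝ) q := by
        intro q
        have h1 := ((hVc.differentiable (by norm_num)) (pt p q.1 q.2)).hasFDerivAt.comp q
          (hasFDerivAt_pt p q)
        refine HasFDerivAt.congr_fderiv h1 ?_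
        ext <;> simp [hFu, hFt]
      have hββ : β / β = 1 := div_self hβ0.ne'
      have hnear : ∀ u : ℝ, |u - lg p z| ≤ 1 → ∀ c ∈ S, L0 n δ < |u - c| := by
        intro u hu c hc
        have h1 := hfz c hc
        have h3 : |lg p z - c| ≤ |lg p z - u| + |u - c| := abs_sub_le _ _ _
        rw [abs_sub_comm (lg p z) u] at h3
        linarith
      have hzero := k1_short F Fu Ft β (lg p z) t₁ β hβ0 hβ0 hder
        ((hfc.comp (continuous_pt p)).clm_apply ((continuous_pt p).sub continuous_const))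
        ((hfc.comp (continuous_pt p)).clm_apply
          (continuous_J.comp ((continuous_pt p).sub continuous_const)))
        (by simp only [hF]; rw [← ht₁]; exact hθ2)
        (by
          obtain ⟨m, hm, h1, h2⟩ := k3 (field P Q) hX2 p z α' hzp hXz hθ2
          simp only [hFu, hFt]
          rw [← ht₁, h1, h2]
          nlinarith)
        (by
          intro u t hu ht hFz
          rw [hββ] at hu
          simp only [hF] at hFz
          have hfar2 : ∀ c ∈ S, L0 n δ < |lg p (pt p u t) - c| := by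
            intro c hc
            rw [lg_pt]
            exact hnear u hu c hc
          have h4 := hcom α hα α' hαα' (pt p u t) (pt_ne p u t) hfar2
          have h5 := h4.2 hFz
          rw [hKe] at h5
          obtain ⟨m, hm, h6, h7⟩ := k3 (field P Q) hX2 p (pt p u t) α' (pt_ne p u t) h4.1 hFz
          simp only [hFu, hFt]
          rw [h6, h7]
          intro h8
          apply h5
          have h9 : m * (A0 (field P Q) p (pt p u t) ^ 2 -
              β ^ 2 * B0 (field P Q) p (pt p u t) ^ 2) = 0 := by linear_combination h8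
          exact (mul_eq_zero.1 h9).resolve_left hm.ne')
      rw [hββ] at hzero
      -- one part dominates near the scale of `z`
      obtain ⟨k, hk, hm, hd⟩ := exists_dom D hsn (I := Icc (lg p z - 1) (lg p z + 1))
        ordConnected_Icc ⟨lg p z, by constructor <;> linarith⟩ hpos (by
          intro u hu c hc
          have h1 := hfzD c hc
          have h3 : |lg p z - c| ≤ |lg p z - u| + |u - c| := abs_sub_le _ _ _
          have h4 : |lg p z - u| ≤ 1 := abs_le.2 ⟨by linarith [hu.2], by linarith [hu.1]⟩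
          linarith)
      have hα'E : δ ≤ ‖ee α' - D.exc k‖ := by
        have h1 := hαE k hk
        have h2 := norm_ee_sub α α'
        have h3 : ‖ee α - D.exc k‖ ≤ ‖ee α - ee α'‖ + ‖ee α' - D.exc k‖ :=
          norm_sub_le_norm_sub_add_norm_sub (ee α) (ee α') _
        rw [abs_sub_comm] at hαα'
        linarith
      refine D.not_small hk hm hδ hδ1 hα'E hβδ (by linarith) t₁ fun t ht => ?_
      obtain ⟨u, hu, hFz⟩ := hzero t ht
      simp only [hF] at hFz
      obtain ⟨hu1, hu2⟩ := abs_le.1 hu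
      have h1 := D.V_near hk (hd u ⟨by linarith, by linarith⟩) α' t
      rw [hFz, zero_sub, abs_neg, abs_mul, abs_of_pos (by positivity : 0 < exp u * exp u ^ k)] at h1
      exact le_of_mul_le_mul_left h1 (by positivity))
    rintro z ⟨t, rfl⟩
    exact hmain t
  · -- degenerate case
    push Not at hcase
    have h1 := hcase x (Or.inl rfl)
    have h2 := hcase (x / 2) (Or.inr rfl)
    have hb0 : b = 0 := by
      have h3 : MvPolynomial.C (x ^ 2 - (x / 2) ^ 2) * b ^ 2 = 0 := by
        rw [MvPolynomial.C_sub]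
        linear_combination h2 - h1
      rcases mul_eq_zero.1 h3 with h4 | h4
      · rw [MvPolynomial.C_eq_zero] at h4
        nlinarith
      · exact pow_eq_zero_iff (two_ne_zero) |>.1 h4
    have ha0 : a = 0 := by
      rw [hb0] at h1
      have : a ^ 2 = 0 := by linear_combination h1
      exact pow_eq_zero_iff (two_ne_zero) |>.1 this
    have hA : ∀ q, A0 (field P Q) p q = 0 := fun q => by rw [← (hev q).1, ha0, map_zero]
    have hB : ∀ q, B0 (field P Q) p q = 0 := fun q => by rw [← (hev q).2.1, hb0, map_zero]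
    obtain ⟨R, S, hR, hS, hcom⟩ := common e4' hZ hX1 (hX1d.trans (by omega)) hf hg hfe hge hδ hδ1
    refine ⟨R ∪ E, S ∪ cen D, ?_, ?_, ?_⟩
    · exact (Finset.card_union_le _ _).trans (add_le_add hR hEc)
    · exact (Finset.card_union_le _ _).trans (add_le_add hS (card_cen D))
    intro α hαRE C hC hpC hfarSD
    have hα : ∀ a ∈ R, 2 * δ ≤ ‖ee α - a‖ := fun a ha => hαRE a (Finset.mem_union_left _ ha)
    refine ⟨?_, dom_orbit D hpos hsn hC hpC fun z hz c hc => ?_⟩
    swap
    · have := hfarSD z hz c (Finset.mem_union_right _ hc)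
      unfold Lw at this
      linarith
    intro z hzC
    by_contra hcon
    rw [not_lt] at hcon
    have hzp : z ≠ p := fun h => hpC (h ▸ hzC)
    have hfz' : ∀ c ∈ S, L0 n δ < |lg p z - c| := fun c hc => by
      have := hfarSD z hzC c (Finset.mem_union_left _ hc)
      unfold Lw at this
      linarith
    have hXz : field P Q z ≠ 0 := (hcom α hα α (by simp; positivity) z hzp hfz').1
    have hW : W (field P Q) p α z ≠ 0 := by
      intro h0
      have h1 := VW_sq (field P Q) p α z
      rw [h0] at h1 hcon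
      have h2 := mul_pos (H709R2.sq_pos (sub_ne_zero.2 hzp)) (H709R2.sq_pos hXz)
      rw [← h1] at h2
      nlinarith
    obtain ⟨θ, hθ, hθ2⟩ := exists_angle hW hxpos.le hcon
    rw [← V_add] at hθ2
    have hall := k5 P Q p (α + θ) z hA hB hzp hXz hθ2
    set u : ℝ := ∑ c ∈ S, |c| + L0 n δ + 1 with hu
    have hfar2 : ∀ c ∈ S, L0 n δ < |lg p (pt p u 0) - c| := by
      intro c hc
      rw [lg_pt]
      have h3 : |c| ≤ ∑ c ∈ S, |c| :=
        Finset.single_le_sum (f := fun c => |c|) (fun _ _ => abs_nonneg _) hc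
      have h4 := le_abs_self (u - c)
      have h5 := le_abs_self c
      linarith
    have h3 := (hcom α hα (α + θ) (by simpa using hθ) _ (pt_ne p u 0) hfar2).2 (hall _)
    apply h3
    simp [pt]

end Pool.Agent.J4H23.HI
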