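import Pool.Agent.J4H23.HI.Zq

/-! Numerical part and the main theorem (the proofs are those of `Pool/Agent/W960/HQ/Num.lean`). -/

open Real Set MeasureTheory Topology Filter
open scoped ENNReal

namespace Pool.Agent.J4H23.HI

noncomputable section

open Pool.Agent.H709R2 (rot wedge field ClosedOrbit)
open Pool.Agent Pool.Agent.H709U Pool.Agent.W960.HQ
open Pool.Agent.H709Q (Maj)

/-- the numerical estimate of the majorant -/
lemma q_num (n z : ℕ) {ε : ℝ} (hε : 0 < ε) (hε1 : ε ≤ 1) :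
    (z : ℝ) * ((((nM n : ℕ) + 1) + (n : ℝ) ^ 2 + (n + 1)) *
      (2 * Lw n (ε / (5200 * ((n : ℝ) + 1) ^ 5)) + 2) * (8000 * (n + 1))) ≤
      (10 ^ 8 * z * (n + 1) ^ 4 * (1 + log ((n + 1) / ε)) / ε) * (ε / 2) := by
  have hz : (0 : ℝ) ≤ z := Nat.cast_nonneg z
  have hn : (0 : ℝ) ≤ n := Nat.cast_nonneg n
  set t : ℝ := (n : ℝ) + 1 with ht
  have ht1 : 1 ≤ t := by rw [ht]; linarith
  have ht0 : 0 < t := by linarith
  have hlt : 0 ≤ log t := Real.log_nonneg ht1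
  set m : ℝ := log (1 / ε) with hm
  have hm0 : 0 ≤ m := Real.log_nonneg (by rw [le_div_iff₀ hε]; linarith)
  have hl : log (t / ε) = log t + m := by
    rw [hm, ← Real.log_mul ht0.ne' (by positivity)]
    congr 1
    ring
  set δ : ℝ := ε / (5200 * t ^ 5) with hδ
  have hδ0 : 0 < δ := by positivity
  have hδ1 : δ ≤ 1 := by
    rw [hδ, div_le_one (by positivity)]
    have := one_le_pow₀ (n := 5) ht1
    linarith
  have h1 := Lw_le n hδ0 hδ1
  rw [← ht] at h1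
  have h2 : log (t / δ) ≤ 9.02 + 6 * log t + m := by
    have e1 : t / δ = 5200 * t ^ 6 * (1 / ε) := by
      rw [hδ]
      field_simp
    rw [e1, Real.log_mul (by positivity) (by positivity), Real.log_mul (by norm_num)
      (by positivity), Real.log_pow, ← hm]
    have := log_le_of_two_pow (x := 5200) (by norm_num) 13 (by norm_num)
    push_cast at this ⊢
    linarith
  rw [hl]
  set ℓ : ℝ := log t + m with hℓ
  have hℓ0 : 0 ≤ ℓ := by positivity
  have h3 : 2 * Lw n δ + 2 ≤ 580 * t * (1 + ℓ) := by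
    have a1 : 28 * t * (1 + log (t / δ)) ≤ 28 * t * (1 + (9.02 + 6 * ℓ)) := by
      apply mul_le_mul_of_nonneg_left _ (by positivity)
      linarith
    have a2 : 0 ≤ t * ℓ := by positivity
    nlinarith
  have h4 : (8 * (n : ℝ) ^ 2 + 10 * n + 3) + (n : ℝ) ^ 2 + t ≤ 9 * t ^ 2 := by
    have e : (8 * (n : ℝ) ^ 2 + 10 * n + 3) = 8 * t ^ 2 - 6 * t + 1 := by rw [ht]; ring
    have e2 : (n : ℝ) = t - 1 := by rw [ht]; ring
    rw [e, e2]
    nlinarith
  have hL0 : 0 ≤ 2 * Lw n δ + 2 := by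
    have a1 := Pool.Agent.H709U.Z1aux.L0_nonneg n δ hδ0 hδ1
    have a2 := sn_pos (n := n) hδ0 hδ1
    unfold Lw
    linarith
  have h6 : (z : ℝ) * ((((nM n : ℕ) + 1) + (n : ℝ) ^ 2 + t) *
      (2 * Lw n δ + 2) * (8000 * t)) ≤ z * ((9 * t ^ 2) * (580 * t * (1 + ℓ)) * (8000 * t)) := by
    rw [z_nM]
    have hb : 0 ≤ 580 * t * (1 + ℓ) := by positivity
    have hc := mul_le_mul h4 h3 hL0 (by positivity : (0:ℝ) ≤ 9 * t ^ 2)
    have hd := mul_le_mul_of_nonneg_right hc (by positivity : (0:ℝ) ≤ 8000 * t)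
    exact mul_le_mul_of_nonneg_left hd hz
  refine h6.trans ?_
  have e5 : z * ((9 * t ^ 2) * (580 * t * (1 + ℓ)) * (8000 * t)) =
      41760000 * (z * t ^ 4 * (1 + ℓ)) := by ring
  have e6 : (10 ^ 8 * z * t ^ 4 * (1 + ℓ) / ε) * (ε / 2) = 50000000 * (z * t ^ 4 * (1 + ℓ)) := by
    field_simp
    ring
  rw [e5, e6]
  have : 0 ≤ z * t ^ 4 * (1 + ℓ) := by positivity
  linarith

/-- the bound -/
def bq (n z : ℕ) (ε : ℝ) : ℝ := 10 ^ 8 * z * (n + 1) ^ 4 * (1 + log ((n + 1) / ε)) / ε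

/-- `z ≥ 1` is at least `n ^ 2` or at least the number of equilibria -/
def Zb (n z : ℕ) (P Q : MvPolynomial (Fin 2) ℝ) : Prop :=
  1 ≤ z ∧ (n ^ 2 ≤ z ∨ {p : ℝ × ℝ | field P Q p = 0}.encard ≤ z)

lemma bq_pos (n : ℕ) {z : ℕ} (hz : 1 ≤ z) {ε : ℝ} (hε : 0 < ε) (hε1 : ε ≤ 1) :
    0 < bq n z ε := by
  have h := log_nonneg' n hε hε1
  have hz' : (0:ℝ) < z := by exact_mod_cast hz
  unfold bq
  have : (0:ℝ) < (n:ℝ) + 1 := by positivity
  positivity

/-- the main theorem -/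
theorem mainq {n z : ℕ} {P Q : MvPolynomial (Fin 2) ℝ} (hP : P.totalDegree ≤ n)
    (hQ : Q.totalDegree ≤ n) (hne : P ≠ 0 ∨ Q ≠ 0) (hzb : Zb n z P Q) {ε : ℝ} (hε : 0 < ε) (hε1 : ε ≤ 1) :
    volume {α | α ∈ Ioo 0 π ∧ ENNReal.ofReal (bq n z ε) < ((Cl P Q α).encard : ℝ≥0∞)} ≤
      ENNReal.ofReal ε := by
  obtain ⟨h, P₁, Q₁, rfl, rfl, hrel, hP1, hQ1⟩ := b1 n P Q hP hQ hne
  set t : ℝ := (n : ℝ) + 1 with ht
  have hn : (0 : ℝ) ≤ n := Nat.cast_nonneg n
  have ht1 : 1 ≤ t := by rw [ht]; linarith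
  set δ : ℝ := ε / (5200 * t ^ 5) with hδ
  have hδ0 : 0 < δ := by positivity
  have hδ1 : δ ≤ 1 := by
    rw [hδ, div_le_one (by positivity)]
    have := one_le_pow₀ (n := 5) ht1
    linarith
  obtain ⟨Z, hZc, hZ⟩ := b3 n P₁ Q₁ hP1 hQ1 hrel
  have hZz : Z.card ≤ z := by
    rcases hzb.2 with h5 | h5
    · exact hZc.trans h5
    · have h6 : (Z : Set (ℝ × ℝ)) ⊆ {p : ℝ × ℝ | field (h * P₁) (h * Q₁) p = 0} := by
        intro p hp
        have h7 := (hZ p).2 hp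
        unfold field at h7 ⊢
        rw [Prod.mk_eq_zero] at h7
        rw [mem_ofPred_eq, map_mul, map_mul, h7.1, h7.2, mul_zero]
        rfl
      have h8 := (Set.encard_le_encard h6).trans h5
      rw [Set.encard_coe_eq_coe_finsetCard] at h8
      exact_mod_cast h8
  obtain ⟨B, hB, g, hg, hgN, hgI⟩ := zq hP1 hQ1 hZc hZz hZ hδ0 hδ1
  set T : ℝ := bq n z ε with hT
  have hT0 : 0 < T := bq_pos n hzb.1 hε hε1
  have hsub : {α | α ∈ Ioo 0 π ∧ ENNReal.ofReal T < ((Cl (h * P₁) (h * Q₁) α).encard : ℝ≥0∞)} ⊆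
      B ∪ ({α | ENNReal.ofReal T ≤ g α} ∩ Ioo 0 π) := by
    rintro α ⟨h1, h2⟩
    by_cases hα : α ∈ B
    · exact Or.inl hα
    · refine Or.inr ⟨?_, h1⟩
      have h3 := hgN α h1
      simp only [indicator_of_mem (show α ∈ Bᶜ from hα)] at h3
      have h4 : ((Cl (h * P₁) (h * Q₁) α).encard : ℝ≥0∞) ≤ ((Cl P₁ Q₁ α).encard : ℝ≥0∞) := by
        exact_mod_cast Set.encard_le_encard (b2 m0 h P₁ Q₁ α)
      exact (h2.le.trans h4).trans h3
  have hMark : volume ({α | ENNReal.ofReal T ≤ g α} ∩ Ioo 0 π) ≤ ENNReal.ofReal (ε / 2) := by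
    have hms : MeasurableSet {α | ENNReal.ofReal T ≤ g α} := measurableSet_le measurable_const hg
    rw [← Measure.restrict_apply hms]
    refine (meas_ge_le_lintegral_div hg.aemeasurable ?_ ENNReal.ofReal_ne_top).trans ?_
    · simpa using hT0
    · refine (ENNReal.div_le_div_right hgI _).trans ?_
      rw [← ENNReal.ofReal_div_of_pos hT0]
      refine ENNReal.ofReal_le_ofReal ?_
      rw [div_le_iff₀ hT0, mul_comm (ε / 2) T]
      exact q_num n z hε hε1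
  calc volume {α | α ∈ Ioo 0 π ∧ ENNReal.ofReal T < ((Cl (h * P₁) (h * Q₁) α).encard : ℝ≥0∞)}
      ≤ volume (B ∪ ({α | ENNReal.ofReal T ≤ g α} ∩ Ioo 0 π)) := measure_mono hsub
    _ ≤ volume B + volume ({α | ENNReal.ofReal T ≤ g α} ∩ Ioo 0 π) := measure_union_le _ _
    _ ≤ ENNReal.ofReal (ε / 2) + ENNReal.ofReal (ε / 2) :=
        add_le_add (hB.trans (ENNReal.ofReal_le_ofReal (q_vol n hε))) hMark
    _ = ENNReal.ofReal ε := by
        rw [← ENNReal.ofReal_add (by positivity) (by positivity)]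
        congr 1
        ring

end

end Pool.Agent.J4H23.HI
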