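import Pool.Agent.J4H23.HI.Finq
import Pool.Agent.W960.HP.Pos

/-! Pointwise consequences: survival of closed orbits under rotations (the proofs are those of
`Pool/Agent/W960/HQ/Posq.lean`). -/

open Real Set MeasureTheory Topology Filter
open scoped ENNReal

namespace Pool.Agent.J4H23.HI

noncomputable section

open Pool.Agent.H709R2 (rot wedge field ClosedOrbit)
open Pool.Agent Pool.Agent.H709U Pool.Agent.W960.HQ
open Pool.Agent.W960.HP (PersG persG_le persG_mono twoG_sides)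

variable {n z : ℕ} {P Q : MvPolynomial (Fin 2) ℝ}

/-- the number of closed orbits which persist up to a given angle -/
theorem persG_mainq (hP : P.totalDegree ≤ n) (hQ : Q.totalDegree ≤ n) (hne : P ≠ 0 ∨ Q ≠ 0) (hzb : Zb n z P Q)
    {G : ℝ → Set (ℝ × ℝ) → Prop} {σ : ℝ} (hσ : σ = 1 ∨ σ = -1) {ε : ℝ} (hε : 0 < ε)
    (hε1 : ε ≤ 1) :
    (({C | PersG (field P Q) G (σ * ε) C}.encard : ℕ∞) : ℝ≥0∞) ≤ ENNReal.ofReal (cq n z ε) := by
  have hF : ContDiff ℝ 2 (field P Q) := H709R2.contDiff_field P Q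
  have hpi := Real.pi_gt_three
  obtain ⟨θ, hθ⟩ : ∃ θ : ℝ, ∀ α ∈ Ioo θ (θ + ε), σ * α ∈ Ioo 0 ε := by
    rcases hσ with rfl | rfl
    · exact ⟨0, fun α hα => ⟨by linarith [hα.1], by linarith [hα.2]⟩⟩
    · exact ⟨-ε, fun α hα => ⟨by linarith [hα.2], by linarith [hα.1]⟩⟩
  obtain ⟨α, hα, hN⟩ := existsq_angle_near hP hQ hne hzb hε hε1 θ
  have h1 := persG_le hF (G := G) hσ hε (by linarith) (hθ α hα)
  have h2 : σ * (σ * α) = α := by rcases hσ with rfl | rfl <;> ring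
  rw [h2] at h1
  have h3 : {D | ClosedOrbit (rf (field P Q) α) D ∧ G α D}.encard ≤ (Cl P Q α).encard :=
    encard_le_encard fun D hD => hD.1
  exact (ENat.toENNReal_le.2 (h1.trans h3)).trans hN

/-- the powers of order `1 + κ` of the lengths are summable if the number of lengths larger than
`ε` is at most `cq n z ε` -/
theorem sum_rpow_le {κ : ℝ} (hκ0 : 0 < κ) (hκ1 : κ ≤ 1) (p : Set (ℝ × ℝ) → ℝ≥0∞)
    (s : Finset (Set (ℝ × ℝ))) (hp1 : ∀ C ∈ s, p C ≤ 1)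
    (hp : ∀ ε : ℝ, 0 < ε → ε ≤ 1 →
      ({C | C ∈ s ∧ ENNReal.ofReal ε < p C}.encard : ℝ≥0∞) ≤ ENNReal.ofReal (cq n z ε)) :
    ∑ C ∈ s, p C ^ (1 + κ) ≤ ENNReal.ofReal (8 * (8 * 10 ^ 8 * z * (n + 1) ^ 5) / κ ^ 2) := by
  classical
  have hκ' : 0 ≤ 1 + κ := by linarith
  have h1 : ∀ C ∈ s, p C ^ (1 + κ) ≤ ∑' k : ℕ, (if ENNReal.ofReal ((1/2) ^ (k + 1)) < p C then
      ENNReal.ofReal ((((1:ℝ)/2) ^ k) ^ (1 + κ)) else 0) := by
    intro C hC
    rcases eq_or_ne (p C) 0 with h0 | h0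
    · rw [h0, ENNReal.zero_rpow_of_pos (by linarith)]
      exact zero_le
    · have hfin : p C ≠ ⊤ := ne_top_of_le_ne_top ENNReal.one_ne_top (hp1 C hC)
      set x := (p C).toReal with hx
      have hx0 : 0 < x := ENNReal.toReal_pos h0 hfin
      have hx1 : x ≤ 1 := by
        have := ENNReal.toReal_mono ENNReal.one_ne_top (hp1 C hC)
        simpa using this
      have hpx : p C = ENNReal.ofReal x := (ENNReal.ofReal_toReal hfin).symm
      obtain ⟨k, hk1, hk2⟩ := exists_nat_pow_near_of_lt_one hx0 hx1 (y := 1/2) (by norm_num)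
        (by norm_num)
      refine le_trans ?_ (ENNReal.le_tsum k)
      rw [if_pos, hpx, ENNReal.ofReal_rpow_of_nonneg hx0.le hκ']
      · apply ENNReal.ofReal_le_ofReal
        exact Real.rpow_le_rpow hx0.le hk2 hκ'
      · rw [hpx, ENNReal.ofReal_lt_ofReal_iff hx0]
        exact hk1
  calc ∑ C ∈ s, p C ^ (1 + κ) ≤
        ∑ C ∈ s, ∑' k : ℕ, (if ENNReal.ofReal ((1/2) ^ (k + 1)) < p C then
        ENNReal.ofReal ((((1:ℝ)/2) ^ k) ^ (1 + κ)) else 0) := Finset.sum_le_sum h1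
    _ = ∑' k : ℕ, ∑ C ∈ s, (if ENNReal.ofReal ((1/2) ^ (k + 1)) < p C then
        ENNReal.ofReal ((((1:ℝ)/2) ^ k) ^ (1 + κ)) else 0) := by
        rw [← (Summable.tsum_finsetSum fun _ _ => ENNReal.summable)]
    _ ≤ ∑' k : ℕ, ENNReal.ofReal (8 * 10 ^ 8 * z * (n + 1) ^ 5 *
          ((k + 2) * (((1:ℝ) / 2) ^ κ) ^ k)) := by
        refine ENNReal.tsum_le_tsum fun k => ?_
        have hε0 : (0:ℝ) < (1/2) ^ (k + 1) := by positivity
        have hε1 : ((1:ℝ)/2) ^ (k + 1) ≤ 1 := pow_le_one₀ (by norm_num) (by norm_num)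
        have h2 := hp _ hε0 hε1
        have h3 : ∑ C ∈ s, (if ENNReal.ofReal ((1/2) ^ (k + 1)) < p C then
            ENNReal.ofReal ((((1:ℝ)/2) ^ k) ^ (1 + κ)) else 0) =
            ((s.filter fun C => ENNReal.ofReal ((1/2) ^ (k + 1)) < p C).card : ℝ≥0∞) *
              ENNReal.ofReal ((((1:ℝ)/2) ^ k) ^ (1 + κ)) := by
          rw [← Finset.sum_filter, Finset.sum_const, nsmul_eq_mul]
        rw [h3]
        have h4 : ((s.filter fun C => ENNReal.ofReal ((1/2) ^ (k + 1)) < p C).card : ℝ≥0∞) ≤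
            ENNReal.ofReal (cq n z (((1:ℝ)/2) ^ (k + 1))) := by
          refine le_trans ?_ h2
          have h5 : ((s.filter fun C => ENNReal.ofReal ((1/2) ^ (k + 1)) < p C).card : ℕ∞) =
              {C | C ∈ s ∧ ENNReal.ofReal ((1/2) ^ (k + 1)) < p C}.encard := by
            rw [← Set.encard_coe_eq_coe_finsetCard]
            congr 1
            ext C
            simp
          have h6 := congrArg (fun x : ℕ∞ => (x : ℝ≥0∞)) h5
          simpa using h6.le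
        refine (mul_le_mul' (h4.trans (ENNReal.ofReal_le_ofReal (cq_dyadic n z k))) le_rfl).trans ?_
        rw [← ENNReal.ofReal_mul (by positivity)]
        apply ENNReal.ofReal_le_ofReal
        apply le_of_eq
        rw [Real.rpow_add (by positivity), Real.rpow_one, half_pow_rpow]
        have h5 : (((1:ℝ) / 2) ^ k) = ((2:ℝ) ^ k)⁻¹ := by rw [one_div, inv_pow]
        rw [h5]
        field_simp
    _ ≤ ENNReal.ofReal (8 * (8 * 10 ^ 8 * z * (n + 1) ^ 5) / κ ^ 2) :=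
        dyadic_sum hκ0 hκ1 (by positivity)

/-- one-sided sums -/
theorem side_rpow (hP : P.totalDegree ≤ n) (hQ : Q.totalDegree ≤ n) (hne : P ≠ 0 ∨ Q ≠ 0) (hzb : Zb n z P Q)
    {κ : ℝ} (hκ0 : 0 < κ) (hκ1 : κ ≤ 1)
    {G : ℝ → Set (ℝ × ℝ) → Prop} {σ : ℝ} (hσ : σ = 1 ∨ σ = -1) (s : Finset (Set (ℝ × ℝ))) :
    ∑ C ∈ s, volume {η | η ∈ Ioo 0 1 ∧ PersG (field P Q) G (σ * η) C} ^ (1 + κ) ≤
      ENNReal.ofReal (8 * (8 * 10 ^ 8 * z * (n + 1) ^ 5) / κ ^ 2) := by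
  refine sum_rpow_le (n := n) (z := z) hκ0 hκ1
    (fun C => volume {η | η ∈ Ioo 0 1 ∧ PersG (field P Q) G (σ * η) C}) s ?_ ?_
  · intro C _
    refine (measure_mono (show {η | η ∈ Ioo 0 1 ∧ PersG (field P Q) G (σ * η) C} ⊆ Ioo 0 1 from
      fun η hη => hη.1)).trans ?_
    rw [Real.volume_Ioo]
    simp
  · intro ε hε hε1
    refine le_trans (ENat.toENNReal_le.2 (encard_le_encard ?_))
      (persG_mainq hP hQ hne hzb (G := G) hσ hε hε1)
    rintro C ⟨-, hC⟩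
    -- some angle beyond `ε` is reached
    by_contra hcon
    have h1 : {η | η ∈ Ioo 0 1 ∧ PersG (field P Q) G (σ * η) C} ⊆ Ioo 0 ε := by
      rintro η ⟨h2, h3⟩
      refine ⟨h2.1, ?_⟩
      by_contra h4
      exact hcon (persG_mono hσ hε (not_lt.1 h4) h3)
    have h2 := measure_mono (μ := (volume : Measure ℝ)) h1
    rw [Real.volume_Ioo, sub_zero] at h2
    exact absurd hC (not_lt.2 h2)

/-- **The sum of the powers of order larger than one of the persistences of all closed orbits.** -/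
theorem sum_rpow (hP : P.totalDegree ≤ n) (hQ : Q.totalDegree ≤ n) (hne : P ≠ 0 ∨ Q ≠ 0) (hzb : Zb n z P Q)
    {κ : ℝ} (hκ0 : 0 < κ) (hκ1 : κ ≤ 1) {G : ℝ → Set (ℝ × ℝ) → Prop} (S : Set (Set (ℝ × ℝ))) :
    ∑' C : S, volume {η | η ∈ Ioo (-1) 1 ∧ PersG (field P Q) G η C} ^ (1 + κ) ≤
      ENNReal.ofReal (3 * 10 ^ 10 * z * (n + 1) ^ 5 / κ ^ 2) := by
  classical
  rw [ENNReal.tsum_eq_iSup_sum]
  refine iSup_le fun s => ?_
  have hpw : ∀ x y : ℝ≥0∞, (x + y) ^ (1 + κ) ≤ 2 * (x ^ (1 + κ) + y ^ (1 + κ)) := by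
    intro x y
    have h := ENNReal.rpow_add_le_mul_rpow_add_rpow x y (p := 1 + κ) (by linarith)
    refine h.trans (mul_le_mul' ?_ le_rfl)
    rw [show 1 + κ - 1 = κ by ring]
    calc (2 : ℝ≥0∞) ^ κ ≤ 2 ^ (1:ℝ) := ENNReal.rpow_le_rpow_of_exponent_le (by norm_num) hκ1
      _ = 2 := ENNReal.rpow_one _
  calc ∑ C ∈ s, volume {η | η ∈ Ioo (-1) 1 ∧ PersG (field P Q) G η C} ^ (1 + κ)
      = ∑ C ∈ s.map (Function.Embedding.subtype _),
          volume {η | η ∈ Ioo (-1) 1 ∧ PersG (field P Q) G η C} ^ (1 + κ) := by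
        rw [Finset.sum_map]
        rfl
    _ ≤ ∑ C ∈ s.map (Function.Embedding.subtype _),
        2 * (volume {η | η ∈ Ioo 0 1 ∧ PersG (field P Q) G (1 * η) C} ^ (1 + κ) +
        volume {η | η ∈ Ioo 0 1 ∧ PersG (field P Q) G (-1 * η) C} ^ (1 + κ)) :=
        Finset.sum_le_sum fun C _ =>
          (ENNReal.rpow_le_rpow (twoG_sides _ G 1 C) (by linarith)).trans (hpw _ _)
    _ ≤ 2 * (ENNReal.ofReal (8 * (8 * 10 ^ 8 * z * (n + 1) ^ 5) / κ ^ 2) +
          ENNReal.ofReal (8 * (8 * 10 ^ 8 * z * (n + 1) ^ 5) / κ ^ 2)) := by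
        rw [← Finset.mul_sum, Finset.sum_add_distrib]
        exact mul_le_mul' le_rfl (add_le_add (side_rpow hP hQ hne hzb hκ0 hκ1 (Or.inl rfl) _)
          (side_rpow hP hQ hne hzb hκ0 hκ1 (Or.inr rfl) _))
    _ ≤ ENNReal.ofReal (3 * 10 ^ 10 * z * (n + 1) ^ 5 / κ ^ 2) := by
        rw [← ENNReal.ofReal_add (by positivity) (by positivity),
          show (2 : ℝ≥0∞) = ENNReal.ofReal 2 by simp, ← ENNReal.ofReal_mul (by norm_num)]
        apply ENNReal.ofReal_le_ofReal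
        rw [← add_div, mul_div_assoc']
        refine div_le_div_of_nonneg_right ?_ (by positivity)
        have : (0:ℝ) ≤ z * ((n : ℝ) + 1) ^ 5 := by positivity
        nlinarith

end

end Pool.Agent.J4H23.HI
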